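import Pool.Agent.N929.EG.Stm

/-!
# Project EG, BIJ: free and fill slots of a system of commuting moves (helper607)
-/

set_option autoImplicit false

namespace Pool.Agent.N607.EG

open Finset Pool.Agent.N929.EG
open scoped Classical

noncomputable section

variable {α σ : Type} {Y : TS α σ} {L : Finset σ}

lemma mem_sl {w : α} {q : σ} : q ∈ Sl Y L w ↔ q ∈ L ∧ (q ∈ Y.S w ∨ q ∈ Y.B w) := by
  unfold Sl
  rw [mem_filter]

lemma mem_oc {w : α} {q : σ} : q ∈ Oc Y L w ↔ q ∈ L ∧ q ∈ Y.B w := by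
  unfold Oc
  rw [mem_filter]

/-- the effect of one move -/
lemma step (hL : Fam Y L) {n : ℕ} {w : α} {q : σ} (hw : w ∈ Y.K n) (hq : q ∈ L)
    (hS : q ∈ Y.S w) : Y.ins w q ∈ Y.K (n + Y.s) ∧ Sl Y L (Y.ins w q) = Sl Y L w ∧
      Oc Y L (Y.ins w q) = insert q (Oc Y L w) ∧ q ∉ Oc Y L w ∧
      ∀ q' ∈ L, q' ≠ q → (q' ∈ Y.S (Y.ins w q) ↔ q' ∈ Y.S w) := by
  have hB := Y.ins_B n w q hw hS
  have h1 : ∀ q' ∈ L, q' ≠ q → (q' ∈ Y.S (Y.ins w q) ↔ q' ∈ Y.S w) := fun q' hq' hne =>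
    Y.ins_S n w q q' hw hS (hL q hq q' hq' hne.symm)
  have h2 : ∀ q' ∈ L, q' ≠ q → (q' ∈ Y.B (Y.ins w q) ↔ q' ∈ Y.B w) := fun q' hq' hne =>
    Y.ins_BB n w q q' hw hS (hL q hq q' hq' hne.symm)
  refine ⟨Y.ins_K n w q hw hS, ?_, ?_, ?_, h1⟩
  · ext q'
    rw [mem_sl, mem_sl]
    refine and_congr_right fun hq' => ?_
    by_cases hne : q' = q
    · subst hne
      exact ⟨fun _ => Or.inl hS, fun _ => Or.inr hB⟩
    · rw [h1 q' hq' hne, h2 q' hq' hne]
  · ext q'
    rw [mem_insert, mem_oc, mem_oc]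
    by_cases hne : q' = q
    · subst hne
      exact ⟨fun _ => Or.inl rfl, fun _ => ⟨hq, hB⟩⟩
    · constructor
      · rintro ⟨h3, h4⟩
        exact Or.inr ⟨h3, (h2 q' h3 hne).1 h4⟩
      · rintro (h3 | ⟨h3, h4⟩)
        · exact absurd h3 hne
        · exact ⟨h3, (h2 q' h3 hne).2 h4⟩
  · intro h
    exact Y.disj n w q hw hS (mem_oc.1 h).2

/-- valid lists of moves -/
def Ok (Y : TS α σ) (L : Finset σ) (w : α) (l : List σ) : Prop :=
  l.Nodup ∧ ∀ q ∈ l, q ∈ L ∧ q ∈ Y.S w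

lemma Ok.tail (hL : Fam Y L) {n : ℕ} {w : α} {q : σ} {l : List σ} (hw : w ∈ Y.K n)
    (h : Ok Y L w (q :: l)) : Ok Y L (Y.ins w q) l := by
  obtain ⟨h1, h2⟩ := h
  rw [List.nodup_cons] at h1
  obtain ⟨h3, h4⟩ := h2 q (List.mem_cons_self ..)
  refine ⟨h1.2, fun q' hq' => ?_⟩
  obtain ⟨h5, h6⟩ := h2 q' (List.mem_cons_of_mem _ hq')
  have hne : q' ≠ q := fun h => h1.1 (h ▸ hq')
  exact ⟨h5, ((step hL hw h3 h4).2.2.2.2 q' h5 hne).2 h6⟩

lemma fold_facts (hL : Fam Y L) : ∀ (l : List σ) (n : ℕ) (w : α), w ∈ Y.K n → Ok Y L w l →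
    l.foldl Y.ins w ∈ Y.K (n + Y.s * l.length) ∧ Sl Y L (l.foldl Y.ins w) = Sl Y L w ∧
      Oc Y L (l.foldl Y.ins w) = l.toFinset ∪ Oc Y L w := by
  intro l
  induction l with
  | nil =>
    intro n w hw _
    simpa using hw
  | cons q l ih =>
    intro n w hw h
    obtain ⟨h3, h4⟩ := h.2 q (List.mem_cons_self ..)
    obtain ⟨s1, s2, s3, s4, -⟩ := step hL hw h3 h4
    obtain ⟨i1, i2, i3⟩ := ih (n + Y.s) (Y.ins w q) s1 (h.tail hL hw)
    rw [List.foldl_cons]
    refine ⟨?_, i2.trans s2, ?_⟩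
    · rw [List.length_cons]
      have e1 : n + Y.s * (l.length + 1) = n + Y.s + Y.s * l.length := by ring
      rw [e1]
      exact i1
    · rw [i3, s3, List.toFinset_cons]
      ext x
      simp only [mem_union, mem_insert]
      tauto

lemma perm_fold (hL : Fam Y L) {l l' : List σ} (hp : l.Perm l') : ∀ (n : ℕ) (w : α),
    w ∈ Y.K n → Ok Y L w l → l.foldl Y.ins w = l'.foldl Y.ins w := by
  induction hp with
  | nil => intro n w _ _; rfl
  | cons x _ ih =>
    intro n w hw h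
    obtain ⟨h3, h4⟩ := h.2 x (List.mem_cons_self ..)
    rw [List.foldl_cons, List.foldl_cons]
    exact ih (n + Y.s) _ (step hL hw h3 h4).1 (h.tail hL hw)
  | swap x y l =>
    intro n w hw h
    obtain ⟨h3, h4⟩ := h.2 y (List.mem_cons_self ..)
    obtain ⟨h5, h6⟩ := h.2 x (List.mem_cons_of_mem _ (List.mem_cons_self ..))
    have hne : y ≠ x := by
      have h7 := h.1
      rw [List.nodup_cons] at h7
      intro h8
      exact h7.1 (h8 ▸ List.mem_cons_self ..)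
    rw [List.foldl_cons, List.foldl_cons, List.foldl_cons, List.foldl_cons,
      Y.ins_comm n w y x hw h4 h6 (hL y h3 x h5 hne)]
  | trans hp1 _ ih1 ih2 =>
    intro n w hw h
    rw [ih1 n w hw h]
    refine ih2 n w hw ⟨hp1.nodup_iff.1 h.1, fun q hq => h.2 q (hp1.mem_iff.2 hq)⟩

/-- fill the slots in `U` -/
def fl (Y : TS α σ) (w : α) (U : Finset σ) : α := U.toList.foldl Y.ins w

lemma ok_toList {w : α} {U : Finset σ} (hw : Em Y L w) (hU : U ⊆ Sl Y L w) :
    Ok Y L w U.toList := by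
  refine ⟨U.nodup_toList, fun q hq => ?_⟩
  rw [mem_toList] at hq
  obtain ⟨h1, h2⟩ := mem_sl.1 (hU hq)
  refine ⟨h1, h2.resolve_right fun h3 => ?_⟩
  have h4 : q ∈ Oc Y L w := mem_oc.2 ⟨h1, h3⟩
  rw [hw.2] at h4
  exact absurd h4 (notMem_empty q)

lemma fl_facts (hL : Fam Y L) {w : α} {U : Finset σ} (hw : Em Y L w) (hU : U ⊆ Sl Y L w) :
    fl Y w U ∈ Y.K (Y.len w + Y.s * U.card) ∧ Sl Y L (fl Y w U) = Sl Y L w ∧
      Oc Y L (fl Y w U) = U := by
  obtain ⟨h1, h2, h3⟩ := fold_facts hL U.toList (Y.len w) w hw.1 (ok_toList hw hU)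
  refine ⟨?_, h2, ?_⟩
  · rw [length_toList] at h1
    exact h1
  · rw [toList_toFinset, hw.2, union_empty] at h3
    exact h3

lemma fl_insert (hL : Fam Y L) {w : α} {U : Finset σ} {q : σ} (hw : Em Y L w)
    (hU : U ⊆ Sl Y L w) (hq : q ∈ Sl Y L w) (hqU : q ∉ U) :
    q ∈ Y.S (fl Y w U) ∧ fl Y w (insert q U) = Y.ins (fl Y w U) q := by
  obtain ⟨-, h2, h3⟩ := fl_facts hL hw hU
  constructor
  · have h4 := hq
    rw [← h2] at h4
    obtain ⟨h5, h6⟩ := mem_sl.1 h4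
    refine h6.resolve_right fun h7 => hqU ?_
    rw [← h3]
    exact mem_oc.2 ⟨h5, h7⟩
  · have hp : (insert q U).toList.Perm (U.toList ++ [q]) :=
      (toList_insert hqU).trans (List.perm_append_singleton q U.toList).symm
    have h5 := perm_fold hL hp (Y.len w) w hw.1
      (ok_toList hw (insert_subset hq hU))
    unfold fl
    rw [h5, List.foldl_append]
    rfl

lemma fl_inj (hL : Fam Y L) : ∀ (n : ℕ) (U : Finset σ), U.card = n → ∀ (e e' : α), Em Y L e →
    Em Y L e' → U ⊆ Sl Y L e → U ⊆ Sl Y L e' → fl Y e U = fl Y e' U → e = e' := by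
  intro n
  induction n with
  | zero =>
    intro U hU e e' _ _ _ _ h
    rw [card_eq_zero] at hU
    subst hU
    unfold fl at h
    rwa [toList_empty, List.foldl_nil, List.foldl_nil] at h
  | succ n ih =>
    intro U hU e e' he he' hs hs' h
    obtain ⟨q, hq⟩ : U.Nonempty := by
      rw [← card_pos]; omega
    have hc : (U.erase q).card = n := by
      rw [card_erase_of_mem hq]; omega
    have h1 := fl_insert hL he ((erase_subset q U).trans hs) (hs hq) (notMem_erase q U)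
    have h2 := fl_insert hL he' ((erase_subset q U).trans hs') (hs' hq) (notMem_erase q U)
    rw [insert_erase hq] at h1 h2
    have f1 := fl_facts hL he ((erase_subset q U).trans hs)
    have f2 := fl_facts hL he' ((erase_subset q U).trans hs')
    refine ih (U.erase q) hc e e' he he' ((erase_subset q U).trans hs)
      ((erase_subset q U).trans hs') ?_
    have r1 := Y.rem_ins _ _ q f1.1 h1.1
    have r2 := Y.rem_ins _ _ q f2.1 h2.1
    rw [← r1, ← r2, ← h1.2, ← h2.2, h]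

lemma exists_st (hL : Fam Y L) : ∀ (m : ℕ) (w : α), w ∈ Y.K (Y.len w) → (Oc Y L w).card = m →
    ∃ e, Em Y L e ∧ Sl Y L e = Sl Y L w ∧ fl Y e (Oc Y L w) = w := by
  intro m
  induction m with
  | zero =>
    intro w hw hc
    rw [card_eq_zero] at hc
    refine ⟨w, ⟨hw, hc⟩, rfl, ?_⟩
    rw [hc]
    unfold fl
    rw [toList_empty, List.foldl_nil]
  | succ m ih =>
    intro w hw hc
    obtain ⟨q, hq⟩ : (Oc Y L w).Nonempty := by
      rw [← card_pos]; omega
    obtain ⟨hqL, hqB⟩ := mem_oc.1 hq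
    have k1 := Y.rem_K _ w q hw hqB
    have k2 := Y.rem_S _ w q hw hqB
    have k3 := Y.ins_rem _ w q hw hqB
    obtain ⟨-, s2, s3, s4, -⟩ := step hL k1 hqL k2
    rw [k3] at s2 s3
    have hlen : Y.len (Y.rem w q) = Y.len w - Y.s := Y.len_K _ _ k1
    have hc' : (Oc Y L (Y.rem w q)).card = m := by
      have h5 := congrArg Finset.card s3
      rw [card_insert_of_notMem s4] at h5
      omega
    obtain ⟨e, he, h1, h2⟩ := ih (Y.rem w q) (by rw [hlen]; exact k1) hc'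
    refine ⟨e, he, h1.trans s2.symm, ?_⟩
    have hsub : Oc Y L (Y.rem w q) ⊆ Sl Y L e := by
      rw [h1]
      intro x hx
      obtain ⟨h3, h4⟩ := mem_oc.1 hx
      exact mem_sl.2 ⟨h3, Or.inr h4⟩
    have hqe : q ∈ Sl Y L e := by
      rw [h1]
      exact mem_sl.2 ⟨hqL, Or.inl k2⟩
    have h5 := (fl_insert hL he hsub hqe s4).2
    rw [s3, h5, h2, k3]

/-- BIJ -/
theorem bij : S_BIJ := by
  intro α σ Y L hL
  have hex : ∀ w, ∃ e, w ∈ Y.K (Y.len w) →
      Em Y L e ∧ Sl Y L e = Sl Y L w ∧ fl Y e (Oc Y L w) = w := by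
    intro w
    by_cases hw : w ∈ Y.K (Y.len w)
    · obtain ⟨e, he⟩ := exists_st hL _ w hw rfl
      exact ⟨e, fun _ => he⟩
    · exact ⟨w, fun h => absurd h hw⟩
  choose st hst using hex
  have hoc : ∀ w, w ∈ Y.K (Y.len w) → Oc Y L w ⊆ Sl Y L (st w) := by
    intro w hw x hx
    rw [(hst w hw).2.1]
    obtain ⟨h3, h4⟩ := mem_oc.1 hx
    exact mem_sl.2 ⟨h3, Or.inr h4⟩
  refine ⟨st, fl Y,
    { st_em := fun w hw => (hst w hw).1
      st_len := fun w hw => ?_
      st_sl := fun w hw => (hst w hw).2.1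
      fl_st := fun w hw => (hst w hw).2.2
      fl_K := fun w U hw hU => (fl_facts hL hw hU).1
      fl_sl := fun w U hw hU => (fl_facts hL hw hU).2.1
      fl_oc := fun w U hw hU => (fl_facts hL hw hU).2.2
      st_fl := fun w U hw hU => ?_
      fl_empty := fun w _ => ?_
      fl_insert := fun w U q hw hU hq hqU => fl_insert hL hw hU hq hqU }⟩
  · have h1 := (fl_facts hL (hst w hw).1 (hoc w hw)).1
    rw [(hst w hw).2.2] at h1
    exact (Y.len_K _ _ h1).symm
  · obtain ⟨f1, f2, f3⟩ := fl_facts hL hw hU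
    have hlen := Y.len_K _ _ f1
    have hv : fl Y w U ∈ Y.K (Y.len (fl Y w U)) := by
      rw [hlen]
      exact f1
    obtain ⟨g1, g2, g3⟩ := hst _ hv
    rw [f3] at g3
    exact fl_inj hL _ U rfl _ _ g1 hw (by rw [g2, f2]; exact hU) hU g3
  · unfold fl
    rw [toList_empty, List.foldl_nil]

end

end Pool.Agent.N607.EG
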